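import Pool.Agent.R679.Mix4

/-!
# Mixable finite groups are the finite groups without nontrivial quotients of odd order

The problem asks whether every finite group all of whose proper normal subgroups have even index is
mixable. We prove this, together with the (known, easy) converse.

Idea of the proof. Let `S` be the multiplicative semigroup generated by the operators
`(1 - p) + p g`, `g ∈ G`, `0 ≤ p ≤ 1`, in a real representation. Let `M` be a real irreducible
nontrivial representation. For `0 ≠ v ∈ M` the vectors `h v`, `h ∈ G`, span `M` and have sum zero,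
so up to positive scalars one can move from `v` in every direction. Hence the orbit `S v` is dense
up to scalars (nearest point argument), and by the inverse function theorem every vector can be
steered by `S` exactly to the line of any given vector `k ≠ 0`. If `G` has no nontrivial quotient of
odd order then some `g ∈ G` has an eigenvector `k` in `M` with `g k = - k`, which is killed by the
factor `(1 + g) / 2`. So an element of `S` (in the regular representation) with the kernel of the
largest possible dimension kills all nontrivial irreducible subspaces.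
-/

set_option autoImplicit false

namespace Pool.Agent.Results.MP_892d82_al.MixableIff

open Pool.Agent.R679.Mix

open Classical in
/-- A finite group `G` is mixable if there are `k ≥ 0`, elements `g 0, …, g (k - 1)` of `G` and
`p 0, …, p (k - 1) ∈ [0, 1]` such that for independent Bernoulli random variables `ε i` with
`Pr (ε i = 1) = p i` the random product `(g 0) ^ ε 0 * ⋯ * (g (k - 1)) ^ ε (k - 1)` is exactly
uniformly distributed on `G`: for every `x ∈ G` the sum of the probabilities
`∏ i, (p i or 1 - p i)` of the outcomes `ε` for which the product equals `x` is `1 / |G|`. -/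
def Mixable (G : Type*) [Group G] [Fintype G] : Prop :=
  ∃ (k : ℕ) (g : Fin k → G) (p : Fin k → ℝ), (∀ i, 0 ≤ p i ∧ p i ≤ 1) ∧
    ∀ x : G, ∑ ε : Fin k → Bool with (List.ofFn fun i => if ε i then g i else 1).prod = x,
      ∏ i, (if ε i then p i else 1 - p i) = 1 / (Fintype.card G : ℝ)

/-- `G` is `2'`-simple: its only normal subgroup of odd index is `G` itself. -/
def TwoPrimeSimple (G : Type*) [Group G] : Prop :=
  ∀ N : Subgroup G, N.Normal → Odd N.index → N = ⊤

theorem S_const {G : Type*} [Group G] [Fintype G] {X : EuclideanSpace ℝ G →L[ℝ] EuclideanSpace ℝ G}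
    (hX : X ∈ S (reg G)) (f : EuclideanSpace ℝ G) (hf : ∀ g, reg G g f = f) : X f = f := by
  induction hX using Submonoid.closure_induction with
  | mem x hx =>
    obtain ⟨p, g, _, _, rfl⟩ := hx
    rw [fac_apply, hf, sub_self, smul_zero, add_zero]
  | one => rfl
  | mul x y _ _ hx hy =>
    show x (y f) = f
    rw [hy, hx]

theorem exists_list {G : Type*} [Group G] [Fintype G]
    {X : EuclideanSpace ℝ G →L[ℝ] EuclideanSpace ℝ G} (hX : X ∈ S (reg G)) :
    ∃ (k : ℕ) (g : Fin k → G) (p : Fin k → ℝ), (∀ i, 0 ≤ p i ∧ p i ≤ 1) ∧
      X = (List.ofFn fun i => fac (reg G) (p i) (g i)).prod := by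
  obtain ⟨l, hl, rfl⟩ := Submonoid.exists_list_of_mem_closure hX
  have h : ∀ i : Fin l.length, ∃ (p : ℝ) (g : G), 0 ≤ p ∧ p ≤ 1 ∧ l.get i = fac (reg G) p g :=
    fun i => hl _ (List.get_mem l i)
  choose p g h0 h1 h2 using h
  refine ⟨l.length, g, p, fun i => ⟨h0 i, h1 i⟩, ?_⟩
  congr 1
  have h3 : (fun i => fac (reg G) (p i) (g i)) = l.get := by
    ext i : 1
    exact (h2 i).symm
  rw [h3]
  exact (List.ofFn_get l).symm

open Classical in
theorem mixable_of_simple {G : Type*} [Group G] [Fintype G] (hG : TwoPrimeSimple G) :
    Mixable G := by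
  obtain ⟨X, hX, hkill⟩ := exists_kill hG (reg G) reg_inner
  obtain ⟨k, g, p, hp, hXl⟩ := exists_list hX
  refine ⟨k, g, p, hp, ?_⟩
  intro x
  have h1 := prod_single_apply k g p 1 x
  rw [inv_one, mul_one] at h1
  rw [← h1, ← hXl]
  have hn : (Fintype.card G : ℝ) ≠ 0 := Nat.cast_ne_zero.2 Fintype.card_ne_zero
  -- the constant function
  set e : EuclideanSpace ℝ G := WithLp.toLp 2 (fun _ : G => 1 / (Fintype.card G : ℝ)) with he
  have heg : ∀ g, reg G g e = e := by
    intro g
    ext y
    rw [reg_apply]
  have h2 : X (EuclideanSpace.single 1 1 - e) = 0 := by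
    apply hkill
    ext y
    have h3 : ∀ h : G, (reg G h (EuclideanSpace.single 1 1 - e)) y =
        (if y = h then 1 else 0) - 1 / (Fintype.card G : ℝ) := by
      intro h
      rw [map_sub, heg, reg_single, mul_one]
      simp [he]
    rw [WithLp.ofLp_sum, Finset.sum_apply]
    simp only [h3, Finset.sum_sub_distrib, Finset.sum_const, Finset.card_univ, nsmul_eq_mul]
    rw [mul_one_div_cancel hn]
    simp
  rw [map_sub, S_const hX e heg, sub_eq_zero] at h2
  rw [h2]

open Classical in
theorem simple_of_mixable {G : Type*} [Group G] [Fintype G] (hG : Mixable G) :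
    TwoPrimeSimple G := by
  obtain ⟨k, g, p, hp, hunif⟩ := hG
  intro N hN hodd
  by_contra hne
  obtain ⟨a, ha⟩ : ∃ a, a ∉ N := by
    by_contra h
    push Not at h
    exact hne ((Subgroup.eq_top_iff' N).2 h)
  have hn : (Fintype.card G : ℝ) ≠ 0 := Nat.cast_ne_zero.2 Fintype.card_ne_zero
  set c : ℝ := (∑ y : G, if y ∈ N then (1 : ℝ) else 0) / (Fintype.card G : ℝ) with hc
  have hcpos : 0 < c := by
    apply div_pos _ (lt_of_le_of_ne (Nat.cast_nonneg _) (Ne.symm hn))
    apply Finset.sum_pos'
    · intro i _
      split_ifs <;> norm_num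
    · exact ⟨1, Finset.mem_univ _, by simp [N.one_mem]⟩
  -- a nonzero `N`-invariant function with zero average
  set f : EuclideanSpace ℝ G := WithLp.toLp 2 (fun y : G => (if y ∈ N then (1 : ℝ) else 0) - c)
    with hf
  have hf0 : f ≠ 0 := by
    intro h
    have h1 : f a = 0 := by rw [h]; rfl
    simp only [hf, if_neg ha] at h1
    linarith
  have hsum : ∑ y, f y = 0 := by
    simp only [hf, Finset.sum_sub_distrib, Finset.sum_const, Finset.card_univ, nsmul_eq_mul]
    rw [hc, mul_div_cancel₀ _ hn]
    ring
  have hfN : ∀ n ∈ N, reg G n f = f := by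
    intro n hn
    ext y
    rw [reg_apply]
    simp only [hf]
    have : n⁻¹ * y ∈ N ↔ y ∈ N := N.mul_mem_cancel_left (N.inv_mem hn)
    simp only [this]
  -- all products of factors are injective on the `N`-invariant vectors
  have hinj : ∀ l : List (ℝ × G), (∀ q ∈ l, 0 ≤ q.1 ∧ q.1 ≤ 1) → ∀ v : EuclideanSpace ℝ G,
      (∀ n ∈ N, reg G n v = v) →
      (∀ n ∈ N, reg G n ((l.map fun q => fac (reg G) q.1 q.2).prod v) =
        (l.map fun q => fac (reg G) q.1 q.2).prod v) ∧
      ((l.map fun q => fac (reg G) q.1 q.2).prod v = 0 → v = 0) := by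
    intro l
    induction l with
    | nil =>
      intro _ v hv
      exact ⟨by simpa using hv, by simp⟩
    | cons q l ih =>
      intro hl v hv
      obtain ⟨ih1, ih2⟩ := ih (fun q hq => hl q (List.mem_cons_of_mem _ hq)) v hv
      set w := (l.map fun q => fac (reg G) q.1 q.2).prod v with hw
      have hcons : ((q :: l).map fun q => fac (reg G) q.1 q.2).prod v =
          fac (reg G) q.1 q.2 w := by
        simp [hw]
      rw [hcons]
      have hqw : ∀ n ∈ N, reg G n (reg G q.2 w) = reg G q.2 w := by
        intro n hn
        have h1 : n * q.2 = q.2 * (q.2⁻¹ * n * q.2) := by group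
        have h2 : q.2⁻¹ * n * q.2 ∈ N := by
          have := hN.conj_mem n hn q.2⁻¹
          rwa [inv_inv] at this
        have h3 : reg G n (reg G q.2 w) = reg G q.2 (reg G (q.2⁻¹ * n * q.2) w) := by
          have h4 : (reg G n * reg G q.2) w = (reg G q.2 * reg G (q.2⁻¹ * n * q.2)) w := by
            rw [← map_mul, h1, map_mul]
          exact h4
        rw [h3, ih1 _ h2]
      refine ⟨?_, ?_⟩
      · intro n hn
        rw [fac_apply, map_add, map_smul, map_sub, ih1 n hn, hqw n hn]
      · intro h0
        apply ih2
        obtain ⟨hq0, hq1⟩ := hl q List.mem_cons_self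
        by_contra hw0
        have hnorm : ‖reg G q.2 w‖ = ‖w‖ := by
          have := reg_inner q.2 w w
          rw [real_inner_self_eq_norm_sq, real_inner_self_eq_norm_sq] at this
          exact (sq_eq_sq₀ (norm_nonneg _) (norm_nonneg _)).1 this
        have hwpos : 0 < ‖w‖ := norm_pos_iff.2 hw0
        have h1 : (1 - q.1) • w = -(q.1 • reg G q.2 w) := by
          rw [fac_apply] at h0
          have : (1 - q.1) • w + q.1 • reg G q.2 w = 0 := by
            rw [← h0]; module
          exact eq_neg_of_add_eq_zero_left this
        have h2 : (1 - q.1) * ‖w‖ = q.1 * ‖w‖ := by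
          have := congrArg norm h1
          rw [norm_neg, norm_smul, norm_smul, hnorm, Real.norm_eq_abs, Real.norm_eq_abs,
            abs_of_nonneg (by linarith), abs_of_nonneg hq0] at this
          exact this
        have h3 : q.1 = 1 / 2 := by
          have := mul_right_cancel₀ hwpos.ne' h2
          linarith
        have h4 : reg G q.2 w = -w := by
          rw [h3] at h1
          have h5 : (1 / 2 : ℝ) • (reg G q.2 w + w) = 0 := by
            have : (1 - 1 / 2 : ℝ) • w + (1 / 2 : ℝ) • reg G q.2 w = 0 := by
              rw [h1]; simp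
            rw [← this]
            module
          rcases smul_eq_zero.1 h5 with h6 | h6
          · norm_num at h6
          · exact eq_neg_of_add_eq_zero_left h6
        have h5 : ∀ m : ℕ, reg G (q.2 ^ m) w = (-1 : ℝ) ^ m • w := by
          intro m
          induction m with
          | zero => simp
          | succ m ihm =>
            have h6 : reg G (q.2 ^ (m + 1)) w = reg G q.2 (reg G (q.2 ^ m) w) := by
              have : (reg G (q.2 ^ (m + 1))) w = (reg G q.2 * reg G (q.2 ^ m)) w := by
                rw [← map_mul, pow_succ']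
              exact this
            rw [h6, ihm, map_smul, h4, pow_succ]
            module
        have h6 : q.2 ^ N.index ∈ N := N.pow_index_mem q.2
        have h7 := ih1 _ h6
        rw [h5, hodd.neg_one_pow] at h7
        have h8 : w = 0 := by
          have : (2 : ℝ) • w = 0 := by
            have h9 : -w = w := by simpa using h7
            calc (2 : ℝ) • w = w + w := two_smul ℝ w
              _ = w + -w := by rw [h9]
              _ = 0 := add_neg_cancel w
          rcases smul_eq_zero.1 this with h9 | h9
          · norm_num at h9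
          · exact h9
        exact hw0 h8
  -- the uniform product kills `f`
  have hkill : (List.ofFn fun i => fac (reg G) (p i) (g i)).prod f = 0 := by
    have hfs : f = ∑ y, f y • EuclideanSpace.single y (1 : ℝ) := by
      ext z
      rw [WithLp.ofLp_sum, Finset.sum_apply]
      simp
    ext z
    rw [hfs, map_sum, WithLp.ofLp_sum, Finset.sum_apply]
    have h1 : ∀ y, ((List.ofFn fun i => fac (reg G) (p i) (g i)).prod
        (f y • EuclideanSpace.single y (1 : ℝ))) z = f y * (1 / (Fintype.card G : ℝ)) := by
      intro y
      rw [map_smul, PiLp.smul_apply, prod_single_apply, hunif, smul_eq_mul]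
    simp only [h1]
    rw [← Finset.sum_mul, hsum, zero_mul]
    rfl
  have h1 := (hinj (List.ofFn fun i => (p i, g i)) (by
    intro q hq
    rw [List.mem_ofFn] at hq
    obtain ⟨i, rfl⟩ := hq
    exact hp i) f hfN).2
  rw [List.map_ofFn] at h1
  exact hf0 (h1 hkill)

/-- **A finite group is mixable if and only if it has no nontrivial quotient of odd order.** -/
theorem result (G : Type*) [Group G] [Fintype G] : Mixable G ↔ TwoPrimeSimple G :=
  ⟨simple_of_mixable, mixable_of_simple⟩

end Pool.Agent.Results.MP_892d82_al.MixableIff
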